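import Mathlib
import Pool.Agent.Results.MP_a4c3d5_co.SmallTerms

/-!
# MP_537c9d_co, Q1: the term 1 of a weakly consecutive permutation stands at an end
-/

set_option autoImplicit false

namespace Pool.Agent.Results.MP_537c9d_co.TermOneAtAnEnd

/-- A weakly consecutive sequence of length `k`: a permutation `σ` of `{1, ..., k}` (the values of
`σ` outside of `{1, ..., k}` are irrelevant) such that for all `m, i, j` in `{1, ..., k}`: if
`m ∣ σ i` and `m ∣ i - j` then `m ∣ σ j`. -/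
def IsWCS (k : ℕ) (σ : ℕ → ℕ) : Prop :=
  Set.BijOn σ (Set.Icc 1 k) (Set.Icc 1 k) ∧
    ∀ m ∈ Set.Icc 1 k, ∀ i ∈ Set.Icc 1 k, ∀ j ∈ Set.Icc 1 k,
      m ∣ σ i → (m : ℤ) ∣ (i : ℤ) - (j : ℤ) → m ∣ σ j

/-- **Q1.**  In every weakly consecutive sequence of length `k ≥ 1` the term `1` is the first or
the last one. -/
theorem result (k : ℕ) (hk : 1 ≤ k) (σ : ℕ → ℕ) (h : IsWCS k σ) : σ 1 = 1 ∨ σ k = 1 := by
  have h1 : MP_a4c3d5_co.SmallTerms.IsWCS k σ := by
    refine ⟨h.1, fun i hi j hj m hm h2 h3 => ?_⟩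
    have h4 := h.1.mapsTo hi
    have h5 : m ≤ k := (Nat.le_of_dvd h4.1 h2).trans h4.2
    exact h.2 m ⟨hm, h5⟩ i hi j hj h2 h3
  exact h1.one hk

end Pool.Agent.Results.MP_537c9d_co.TermOneAtAnEnd
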